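import Mathlib

set_option autoImplicit false

namespace Pool.Agent.Results.MP_457a5a_gt.HullNotUnique

open Set Metric GromovHausdorff

/-- `γ : [0,1] → 𝓜` is a Gromov-Hausdorff geodesic. -/
def IsGeodesic (γ : unitInterval → GHSpace) : Prop :=
  ∀ s t : unitInterval, dist (γ s) (γ t) = |(s : ℝ) - t| * dist (γ 0) (γ 1)

/-- `φ` is a Hausdorff realization of `γ` in the metric space `X`: isometric embeddings of the
spaces `γ t` in `X` whose images have the Hausdorff distances `d_GH(γ s, γ t)`. -/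
def Realizes (γ : unitInterval → GHSpace) (X : Type) [MetricSpace X]
    (φ : ∀ t : unitInterval, (γ t).Rep → X) : Prop :=
  (∀ t, Isometry (φ t)) ∧
  ∀ s t, hausdorffDist (range (φ s)) (range (φ t)) = dist (γ s) (γ t)

/-- The three points (in the plane or space with the maximum norm). -/
def P (t u : ℝ) : Fin 3 → ℝ × ℝ × ℝ
  | 0 => (-(5 + t), 0, 0)
  | 1 => (5 + t, 0, 0)
  | 2 => (0, 6, u)

lemma dist3 (a b c a' b' c' : ℝ) : dist ((a, b, c) : ℝ × ℝ × ℝ) (a', b', c') =
    max |a - a'| (max |b - b'| |c - c'|) := by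
  rw [Prod.dist_eq, Prod.dist_eq, Real.dist_eq, Real.dist_eq, Real.dist_eq]

lemma d00 (s t u v : ℝ) : dist (P s u 0) (P t v 0) = |s - t| := by
  change dist ((-(5 + s), 0, 0) : ℝ × ℝ × ℝ) (-(5 + t), 0, 0) = _
  rw [dist3]
  have : -(5 + s) - -(5 + t) = -(s - t) := by ring
  rw [this, abs_neg]
  simp

lemma d11 (s t u v : ℝ) : dist (P s u 1) (P t v 1) = |s - t| := by
  change dist (((5 + s), 0, 0) : ℝ × ℝ × ℝ) ((5 + t), 0, 0) = _
  rw [dist3]
  have : (5 + s) - (5 + t) = (s - t) := by ring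
  rw [this]
  simp

lemma d22 (s t u v : ℝ) : dist (P s u 2) (P t v 2) = |u - v| := by
  change dist ((0, 6, u) : ℝ × ℝ × ℝ) (0, 6, v) = _
  rw [dist3]
  simp

lemma d01 (s t u v : ℝ) (hs : 0 ≤ s) (ht : 0 ≤ t) : dist (P s u 0) (P t v 1) = 10 + s + t := by
  change dist ((-(5 + s), 0, 0) : ℝ × ℝ × ℝ) ((5 + t), 0, 0) = _
  rw [dist3]
  have : -(5 + s) - (5 + t) = -(10 + s + t) := by ring
  rw [this, abs_neg, abs_of_nonneg (by linarith)]
  simp
  linarith

lemma d02 (s t u v : ℝ) (hs : 0 ≤ s) (hs1 : s ≤ 1) (hv : 0 ≤ v) (hv1 : v ≤ 1) :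
    dist (P s u 0) (P t v 2) = 6 := by
  change dist ((-(5 + s), 0, 0) : ℝ × ℝ × ℝ) (0, 6, v) = _
  rw [dist3]
  have h1 : |-(5 + s) - 0| = 5 + s := by rw [sub_zero, abs_neg, abs_of_nonneg (by linarith)]
  have h2 : |(0 : ℝ) - 6| = 6 := by norm_num
  have h3 : |0 - v| = v := by rw [zero_sub, abs_neg, abs_of_nonneg hv]
  rw [h1, h2, h3, max_eq_left (by linarith : v ≤ 6), max_eq_right (by linarith)]

lemma d12 (s t u v : ℝ) (hs : 0 ≤ s) (hs1 : s ≤ 1) (hv : 0 ≤ v) (hv1 : v ≤ 1) :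
    dist (P s u 1) (P t v 2) = 6 := by
  change dist (((5 + s), 0, 0) : ℝ × ℝ × ℝ) (0, 6, v) = _
  rw [dist3]
  have h1 : |(5 + s) - 0| = 5 + s := by rw [sub_zero, abs_of_nonneg (by linarith)]
  have h2 : |(0 : ℝ) - 6| = 6 := by norm_num
  have h3 : |0 - v| = v := by rw [zero_sub, abs_neg, abs_of_nonneg hv]
  rw [h1, h2, h3, max_eq_left (by linarith : v ≤ 6), max_eq_right (by linarith)]

/-- the distances inside a triple do not depend on the last parameter. -/
lemma dist_indep (t : unitInterval) (u v : ℝ) (hu : 0 ≤ u) (hu1 : u ≤ 1) (hv : 0 ≤ v)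
    (hv1 : v ≤ 1) (i j : Fin 3) : dist (P t u i) (P t u j) = dist (P t v i) (P t v j) := by
  have h0 := t.2.1
  have h1 := t.2.2
  fin_cases i <;> fin_cases j
  · change dist (P t u 0) (P t u 0) = dist (P t v 0) (P t v 0); rw [dist_self, dist_self]
  · change dist (P t u 0) (P t u 1) = dist (P t v 0) (P t v 1)
    rw [d01 _ _ _ _ h0 h0, d01 _ _ _ _ h0 h0]
  · change dist (P t u 0) (P t u 2) = dist (P t v 0) (P t v 2)
    rw [d02 _ _ _ _ h0 h1 hu hu1, d02 _ _ _ _ h0 h1 hv hv1]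
  · change dist (P t u 1) (P t u 0) = dist (P t v 1) (P t v 0)
    rw [dist_comm, dist_comm (P t v 1), d01 _ _ _ _ h0 h0, d01 _ _ _ _ h0 h0]
  · change dist (P t u 1) (P t u 1) = dist (P t v 1) (P t v 1); rw [dist_self, dist_self]
  · change dist (P t u 1) (P t u 2) = dist (P t v 1) (P t v 2)
    rw [d12 _ _ _ _ h0 h1 hu hu1, d12 _ _ _ _ h0 h1 hv hv1]
  · change dist (P t u 2) (P t u 0) = dist (P t v 2) (P t v 0)
    rw [dist_comm, dist_comm (P t v 2), d02 _ _ _ _ h0 h1 hu hu1, d02 _ _ _ _ h0 h1 hv hv1]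
  · change dist (P t u 2) (P t u 1) = dist (P t v 2) (P t v 1)
    rw [dist_comm, dist_comm (P t v 2), d12 _ _ _ _ h0 h1 hu hu1, d12 _ _ _ _ h0 h1 hv hv1]
  · change dist (P t u 2) (P t u 2) = dist (P t v 2) (P t v 2); rw [dist_self, dist_self]

lemma P_inj (t : unitInterval) : Function.Injective (P t 0) := by
  have h0 := t.2.1
  have h1 := t.2.2
  have a1 := d01 t t 0 0 h0 h0
  have a2 := d02 t t 0 0 h0 h1 le_rfl zero_le_one
  have a3 := d12 t t 0 0 h0 h1 le_rfl zero_le_one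
  intro i j hij
  fin_cases i <;> fin_cases j <;> first | rfl | skip
  · change P t 0 0 = P t 0 1 at hij; rw [hij, dist_self] at a1; linarith
  · change P t 0 0 = P t 0 2 at hij; rw [hij, dist_self] at a2; linarith
  · change P t 0 1 = P t 0 0 at hij; rw [hij, dist_self] at a1; linarith
  · change P t 0 1 = P t 0 2 at hij; rw [hij, dist_self] at a3; linarith
  · change P t 0 2 = P t 0 0 at hij; rw [hij, dist_self] at a2; linarith
  · change P t 0 2 = P t 0 1 at hij; rw [hij, dist_self] at a3; linarith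

/-- The three-point space `γ(t)` with distances `10 + 2t, 6, 6`. -/
def Tri (_t : unitInterval) : Type := Fin 3

noncomputable instance (t : unitInterval) : MetricSpace (Tri t) :=
  MetricSpace.induced (P t 0) (P_inj t) inferInstance

instance (t : unitInterval) : Finite (Tri t) := inferInstanceAs (Finite (Fin 3))
instance (t : unitInterval) : Nonempty (Tri t) := inferInstanceAs (Nonempty (Fin 3))

/-- the two directions of the identification of `Tri t` with `Fin 3` -/
def toF {t : unitInterval} (i : Tri t) : Fin 3 := i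
def ofF {t : unitInterval} (i : Fin 3) : Tri t := i

lemma isometry_P (t : unitInterval) (u : ℝ) (hu : 0 ≤ u) (hu1 : u ≤ 1) :
    Isometry (fun i : Tri t => P t u (toF i)) :=
  Isometry.of_dist_eq fun i j =>
    dist_indep t u 0 hu hu1 le_rfl zero_le_one (toF i) (toF j)

/-- the geodesic -/
noncomputable def ga (t : unitInterval) : GHSpace := toGHSpace (Tri t)

lemma exists_equiv (t : unitInterval) : Nonempty ((ga t).Rep ≃ᵢ Tri t) := by
  rw [← toGHSpace_eq_toGHSpace_iff_isometryEquiv, GHSpace.toGHSpace_rep]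
  rfl

noncomputable def eqv (t : unitInterval) : (ga t).Rep ≃ᵢ Tri t := (exists_equiv t).some

/-- Hausdorff distance of the images, upper bound. -/
lemma haus_le (s t : unitInterval) (u v : ℝ) (huv : |u - v| ≤ |(s : ℝ) - t|) :
    hausdorffDist (range (P s u)) (range (P t v)) ≤ |(s : ℝ) - t| := by
  refine hausdorffDist_le_of_mem_dist (abs_nonneg _) ?_ ?_
  · rintro _ ⟨i, rfl⟩
    refine ⟨P t v i, ⟨i, rfl⟩, ?_⟩
    fin_cases i
    · exact (d00 s t u v).le
    · exact (d11 s t u v).le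
    · exact (d22 s t u v).le.trans huv
  · rintro _ ⟨i, rfl⟩
    refine ⟨P s u i, ⟨i, rfl⟩, ?_⟩
    rw [dist_comm]
    fin_cases i
    · exact (d00 s t u v).le
    · exact (d11 s t u v).le
    · exact (d22 s t u v).le.trans huv

lemma tri_dist_le' (s : unitInterval) (i j : Fin 3) : dist (P s 0 i) (P s 0 j) ≤ 10 + 2 * s := by
  have h0 := s.2.1
  have h1 := s.2.2
  have a1 := d01 s s 0 0 h0 h0
  have a2 := d02 s s 0 0 h0 h1 le_rfl zero_le_one
  have a3 := d12 s s 0 0 h0 h1 le_rfl zero_le_one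
  have b1 := a1; rw [dist_comm] at b1
  have b2 := a2; rw [dist_comm] at b2
  have b3 := a3; rw [dist_comm] at b3
  fin_cases i <;> fin_cases j
  · change dist (P s 0 0) (P s 0 0) ≤ _; rw [dist_self]; linarith
  · change dist (P s 0 0) (P s 0 1) ≤ _; rw [a1]; linarith
  · change dist (P s 0 0) (P s 0 2) ≤ _; rw [a2]; linarith
  · change dist (P s 0 1) (P s 0 0) ≤ _; rw [b1]; linarith
  · change dist (P s 0 1) (P s 0 1) ≤ _; rw [dist_self]; linarith
  · change dist (P s 0 1) (P s 0 2) ≤ _; rw [a3]; linarith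
  · change dist (P s 0 2) (P s 0 0) ≤ _; rw [b2]; linarith
  · change dist (P s 0 2) (P s 0 1) ≤ _; rw [b3]; linarith
  · change dist (P s 0 2) (P s 0 2) ≤ _; rw [dist_self]; linarith

lemma tri_dist_le (s : unitInterval) (i j : Tri s) : dist i j ≤ 10 + 2 * s :=
  tri_dist_le' s (toF i) (toF j)

/-- the lower bound by the diameters. -/
lemma le_gh_aux (s t : unitInterval) : (t : ℝ) - s ≤ ghDist (Tri s) (Tri t) := by
  obtain ⟨Φ, Ψ, hΦ, hΨ, he⟩ := ghDist_eq_hausdorffDist (Tri s) (Tri t)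
  by_contra hcon
  push Not at hcon
  rw [he] at hcon
  have hfin : hausdorffEDist (range Ψ) (range Φ) ≠ ⊤ :=
    hausdorffEDist_ne_top_of_nonempty_of_bounded (range_nonempty _) (range_nonempty _)
      (finite_range Ψ).isBounded (finite_range Φ).isBounded
  rw [hausdorffDist_comm] at hcon
  obtain ⟨_, ⟨x, rfl⟩, hx⟩ := exists_dist_lt_of_hausdorffDist_lt
    (mem_range_self (f := Ψ) (ofF 0)) hcon hfin
  obtain ⟨_, ⟨y, rfl⟩, hy⟩ := exists_dist_lt_of_hausdorffDist_lt
    (mem_range_self (f := Ψ) (ofF 1)) hcon hfin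
  have h1 : dist (Ψ (ofF 0)) (Ψ (ofF 1)) = 10 + t + t := by
    rw [hΨ.dist_eq]
    exact d01 t t 0 0 t.2.1 t.2.1
  have h2 : dist (Φ x) (Φ y) ≤ 10 + 2 * s := by rw [hΦ.dist_eq]; exact tri_dist_le s x y
  have h3 := dist_triangle4 (Ψ (ofF 0)) (Φ x) (Φ y) (Ψ (ofF 1))
  rw [dist_comm (Φ y)] at h3
  linarith

lemma le_gh (s t : unitInterval) : |(s : ℝ) - t| ≤ ghDist (Tri s) (Tri t) := by
  rw [abs_le']
  constructor
  · have := le_gh_aux t s
    rwa [ghDist, dist_comm, ← ghDist] at this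
  · have := le_gh_aux s t
    linarith

lemma gh_eq (s t : unitInterval) : ghDist (Tri s) (Tri t) = |(s : ℝ) - t| := by
  apply le_antisymm _ (le_gh s t)
  have := ghDist_le_hausdorffDist (isometry_P s 0 le_rfl zero_le_one)
    (isometry_P t 0 le_rfl zero_le_one)
  exact this.trans (haus_le s t 0 0 (by simp))

lemma haus_eq (s t : unitInterval) (u v : ℝ) (huv : |u - v| ≤ |(s : ℝ) - t|) (hu : 0 ≤ u)
    (hu1 : u ≤ 1) (hv : 0 ≤ v) (hv1 : v ≤ 1) :
    hausdorffDist (range (P s u)) (range (P t v)) = |(s : ℝ) - t| := by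
  apply le_antisymm (haus_le s t u v huv)
  have := ghDist_le_hausdorffDist (isometry_P s u hu hu1) (isometry_P t v hv hv1)
  rw [gh_eq] at this
  exact this

/-- The compact space with all the points, for a choice `w` of the last parameter. -/
def Big (w : ℝ → ℝ) : Set (ℝ × ℝ × ℝ) := {x | ∃ (t : unitInterval) (i : Fin 3), x = P t (w t) i}

lemma big_compact (w : ℝ → ℝ) (hw : Continuous w) : IsCompact (Big w) := by
  have : Big w = range fun p : unitInterval × Fin 3 => P p.1 (w p.1) p.2 := by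
    ext x
    constructor
    · rintro ⟨t, i, rfl⟩; exact ⟨(t, i), rfl⟩
    · rintro ⟨⟨t, i⟩, rfl⟩; exact ⟨t, i, rfl⟩
  rw [this]
  apply isCompact_range
  rw [continuous_prod_of_discrete_right]
  intro i
  fin_cases i
  · change Continuous fun t : unitInterval => ((-(5 + (t : ℝ)), 0, 0) : ℝ × ℝ × ℝ)
    fun_prop
  · change Continuous fun t : unitInterval => (((5 + (t : ℝ)), 0, 0) : ℝ × ℝ × ℝ)
    fun_prop
  · change Continuous fun t : unitInterval => ((0, 6, w t) : ℝ × ℝ × ℝ)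
    fun_prop

/-- the embeddings -/
noncomputable def emb (w : ℝ → ℝ) (t : unitInterval) (x : (ga t).Rep) : Big w :=
  ⟨P t (w t) (toF (eqv t x)), t, toF (eqv t x), rfl⟩

lemma realizes (w : ℝ → ℝ) (hw : ∀ t : unitInterval, 0 ≤ w t ∧ w t ≤ 1)
    (hw' : ∀ s t : unitInterval, |w s - w t| ≤ |(s : ℝ) - t|) : Realizes ga (Big w) (emb w) := by
  refine ⟨fun t => ?_, fun s t => ?_⟩
  · refine Isometry.of_dist_eq fun x y => ?_
    rw [← (eqv t).dist_eq]
    exact (isometry_P t (w t) (hw t).1 (hw t).2).dist_eq _ _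
  · have h1 : dist (ga s) (ga t) = |(s : ℝ) - t| := gh_eq s t
    have h2 : ∀ t, (Subtype.val : Big w → ℝ × ℝ × ℝ) '' range (emb w t) = range (P t (w t)) := by
      intro t
      rw [← range_comp]
      ext x
      constructor
      · rintro ⟨y, rfl⟩; exact ⟨_, rfl⟩
      · rintro ⟨i, rfl⟩
        refine ⟨(eqv t).symm (ofF i), ?_⟩
        change P t (w t) (toF (eqv t ((eqv t).symm (ofF i)))) = _
        rw [(eqv t).apply_symm_apply]
        rfl
    rw [h1, ← hausdorffDist_image (isometry_subtype_coe), h2, h2]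
    exact haus_eq s t _ _ (hw' s t) (hw s).1 (hw s).2 (hw t).1 (hw t).2

lemma union_univ (w : ℝ → ℝ) : (⋃ t, range (emb w t)) = univ := by
  rw [eq_univ_iff_forall]
  rintro ⟨x, t, i, hx⟩
  refine mem_iUnion.2 ⟨t, (eqv t).symm (ofF i), ?_⟩
  apply Subtype.ext
  change P t (w t) (toF (eqv t ((eqv t).symm (ofF i)))) = x
  rw [(eqv t).apply_symm_apply, hx]
  rfl

/-- the identification of a space with its universal subset -/
def univEquiv (Z : Type) [MetricSpace Z] : (univ : Set Z) ≃ᵢ Z :=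
  ⟨Equiv.Set.univ Z, isometry_subtype_coe⟩

/-- the distinguishing property -/
def HasCentre (Z : Type) [MetricSpace Z] : Prop := ∃ q : Z, ∀ z : Z, z = q ∨ dist z q = 6

lemma HasCentre.of_equiv {Z W : Type} [MetricSpace Z] [MetricSpace W] (e : Z ≃ᵢ W)
    (h : HasCentre Z) : HasCentre W := by
  obtain ⟨q, hq⟩ := h
  refine ⟨e q, fun z => ?_⟩
  rcases hq (e.symm z) with h | h
  · left; rw [← h, e.apply_symm_apply]
  · right; rw [← h, ← e.dist_eq, e.apply_symm_apply]

lemma centre_zero : HasCentre (Big fun _ => 0) := by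
  refine ⟨⟨P (0 : unitInterval) 0 2, 0, 2, rfl⟩, ?_⟩
  rintro ⟨z, t, i, hz⟩
  fin_cases i
  · right
    subst hz
    exact d02 t (0 : unitInterval) 0 0 t.2.1 t.2.2 le_rfl zero_le_one
  · right
    subst hz
    exact d12 t (0 : unitInterval) 0 0 t.2.1 t.2.2 le_rfl zero_le_one
  · left
    apply Subtype.ext
    exact hz

lemma no_centre_id : ¬ HasCentre (Big fun t => t) := by
  rintro ⟨⟨q, t, i, hq⟩, h⟩
  -- another parameter
  obtain ⟨s, hs⟩ : ∃ s : unitInterval, s ≠ t := by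
    rcases eq_or_ne t 0 with h | h
    · exact ⟨1, by rw [h]; exact one_ne_zero⟩
    · exact ⟨0, h.symm⟩
  have hst : (s : ℝ) - t ≠ 0 := sub_ne_zero.2 fun h => hs (Subtype.ext h)
  have hpos : 0 < |(s : ℝ) - t| := abs_pos.2 hst
  have hle : |(s : ℝ) - t| ≤ 1 := by
    rw [abs_le]
    constructor <;> linarith [s.2.1, s.2.2, t.2.1, t.2.2]
  have hd : dist (P s s i) q = |(s : ℝ) - t| := by
    rw [hq]
    fin_cases i
    · exact d00 _ _ _ _
    · exact d11 _ _ _ _
    · exact d22 _ _ _ _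
  rcases h ⟨P s s i, s, i, rfl⟩ with h | h
  · have h2 : P s s i = q := congrArg Subtype.val h
    rw [h2, dist_self] at hd
    linarith
  · have h2 : dist (P s s i) q = 6 := h
    linarith

/-- **Q1 is false**: there are a (non-constant) Gromov-Hausdorff geodesic `γ`, non-isometric
compact metric spaces `X`, `Y`, and Hausdorff realizations of `γ` in `X` and in `Y` whose unions
are not isometric. -/
theorem result : ∃ (γ : unitInterval → GHSpace) (X Y : Type) (_ : MetricSpace X)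
    (_ : MetricSpace Y) (φ : ∀ t, (γ t).Rep → X) (ψ : ∀ t, (γ t).Rep → Y),
    CompactSpace X ∧ CompactSpace Y ∧ Nonempty X ∧ Nonempty Y ∧
    IsGeodesic γ ∧ γ 0 ≠ γ 1 ∧ Realizes γ X φ ∧ Realizes γ Y ψ ∧ ¬ Nonempty (X ≃ᵢ Y) ∧
    ¬ Nonempty ((⋃ t, range (φ t) : Set X) ≃ᵢ (⋃ t, range (ψ t) : Set Y)) := by
  have hdist : ∀ s t : unitInterval, dist (ga s) (ga t) = |(s : ℝ) - t| := fun s t => gh_eq s t
  have h01 : dist (ga 0) (ga 1) = 1 := by rw [hdist]; simp
  refine ⟨ga, Big fun _ => 0, Big fun t => t, inferInstance, inferInstance, emb _, emb _,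
    isCompact_iff_compactSpace.1 (big_compact _ continuous_const),
    isCompact_iff_compactSpace.1 (big_compact _ continuous_id),
    ⟨⟨_, 0, 0, rfl⟩⟩, ⟨⟨_, 0, 0, rfl⟩⟩, ?_, ?_, realizes _ ?_ ?_, realizes _ ?_ ?_, ?_, ?_⟩
  · intro s t
    rw [hdist, h01, mul_one]
  · intro h
    rw [h, dist_self] at h01
    exact zero_ne_one h01
  · intro t; exact ⟨le_rfl, zero_le_one⟩
  · intro s t; simp
  · intro t; exact t.2
  · intro s t; exact le_rfl
  · rintro ⟨e⟩
    exact no_centre_id (centre_zero.of_equiv e)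
  · rintro ⟨e⟩
    have e1 : (Big fun _ => 0) ≃ᵢ (⋃ t, range (emb (fun _ => 0) t) : Set (Big fun _ => 0)) := by
      rw [union_univ]
      exact (univEquiv _).symm
    have e2 : (⋃ t, range (emb (fun t => t) t) : Set (Big fun t => t)) ≃ᵢ (Big fun t => t) := by
      rw [union_univ]
      exact univEquiv _
    exact no_centre_id (centre_zero.of_equiv ((e1.trans e).trans e2))

end Pool.Agent.Results.MP_457a5a_gt.HullNotUnique
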